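import Pool.Agent.GT.StmtsB

/-! GT, B_DMT: the dense model theorem for the canonical cut norm. -/

namespace Pool.Agent.GT.H41

open Finset

theorem dmt (dma : DmaStmt) (gna : GnaStmt) (gnb : GnbStmt) : DmtStmt := by
  intro K hK η hη
  obtain ⟨ε, hε, h⟩ := dma η hη
  refine ⟨ε, hε, ?_⟩
  intro N _ ν f hC hf0 hfν
  obtain ⟨g1, g2, g3, g4, -⟩ := gna N K hK
  obtain ⟨g, hg, hg2⟩ := h (ZMod N) (GenSet N K) ν f g2 g3 g4 (gnb N K hK) (by
    rintro φ ⟨u, hu1, hu2, rfl⟩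
    rw [g1 (fun s => ν s - 1) u]
    exact hC u hu1 hu2) hf0 hfν
  refine ⟨g, hg, ?_⟩
  intro u hu1 hu2
  have h3 := hg2 (gen N K u) ⟨u, hu1, hu2, rfl⟩
  rw [g1 (fun s => f s - g s) u] at h3
  exact h3

end Pool.Agent.GT.H41
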