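import Pool.Agent.GT.StmtsB

/-! GT, B_REL: the relative Szemeredi theorem (assembly). -/

namespace Pool.Agent.GT.H41

open Finset

theorem psi_update {K N : ℕ} (j : Fin K) (x : Fin K → ZMod N) (s : ZMod N) :
    psi j (Function.update x j s) = psi j x := by
  unfold psi
  refine Finset.sum_congr rfl fun i _ => ?_
  by_cases h : i = j
  · subst h
    simp
  · rw [Function.update_of_ne h]

theorem ind_psi {K N : ℕ} (j : Fin K) (f : ZMod N → ℝ) :
    Ind j (fun x : Fin K → ZMod N => f (psi j x)) := by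
  intro x s
  show f (psi j (Function.update x j s)) = f (psi j x)
  rw [psi_update]

theorem HLF_mono {K : ℕ} {X : Type} [Fintype X] {μ : Fin K → (Fin K → X) → ℝ} {ε ε' : ℝ}
    (h : HLF μ ε) (hle : ε ≤ ε') : HLF μ ε' := fun S hS => (h S hS).trans hle

theorem Cut_mono {K : ℕ} {X : Type} [Fintype X] {j : Fin K} {f : (Fin K → X) → ℝ} {ε ε' : ℝ}
    (h : Cut j f ε) (hle : ε ≤ ε') : Cut j f ε' := fun u hu hu' => (h u hu hu').trans hle

theorem HLF_of_LF {K N : ℕ} [NeZero N] {ν : ZMod N → ℝ} {ε : ℝ} (h : LF K ν ε) :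
    HLF (fun (j : Fin K) (x : Fin K → ZMod N) => ν (psi j x)) ε := by
  intro S hS
  have h1 := h S hS
  refine le_of_eq_of_le ?_ h1
  congr 2
  unfold av
  rw [Fintype.sum_prod_type]
  congr 1
  rw [Fintype.card_prod, Fintype.card_fun, ZMod.card, Fintype.card_fin]
  push_cast
  rw [← pow_add]
  congr 1
  ring

theorem av_zz {N : ℕ} [NeZero N] (F : ZMod N → ZMod N → ℝ) :
    av (fun q : ZMod N × ZMod N => F q.1 q.2) * (N : ℝ) ^ 2 = ∑ a, ∑ d, F a d := by
  unfold av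
  rw [Fintype.sum_prod_type, Fintype.card_prod, ZMod.card]
  have hN : (N : ℝ) ≠ 0 := by exact_mod_cast NeZero.ne N
  push_cast
  field_simp

theorem av_z {N : ℕ} [NeZero N] (F : ZMod N → ℝ) : av F * (N : ℝ) = ∑ a, F a := by
  unfold av
  rw [ZMod.card]
  have hN : (N : ℝ) ≠ 0 := by exact_mod_cast NeZero.ne N
  field_simp

theorem rel (cut : CutStmt) (cnt : CntStmt) (psa : PsaStmt) (psc : PscStmt) (psd : PsdStmt)
    (gna : GnaStmt) (dmt : DmtStmt) : RelRowStmt := by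
  intro sze K δ hK hδ
  obtain ⟨k, rfl⟩ : ∃ k, K = k + 1 := ⟨K - 1, by omega⟩
  have hk1 : 1 ≤ k := by omega
  obtain ⟨c₀, hc₀, hsze⟩ := sze (k + 1) (δ / 2) (by linarith)
  obtain ⟨ε₁, hε₁, hcnt⟩ := cnt (k + 1) univ (c₀ / 2) (by linarith)
  obtain ⟨ε₂, hε₂, hdmt⟩ := dmt k hk1 (min ε₁ (δ / 2)) (lt_min hε₁ (by linarith))
  obtain ⟨ε₃, hε₃, hcut⟩ := cut (k + 1) ε₂ hε₂
  refine ⟨c₀ / 2, min ε₁ ε₃, by linarith, lt_min hε₁ hε₃, ?_⟩
  intro N _ ν f hcop hf0 hfν hLF hsum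
  rw [Nat.add_sub_cancel] at hcop
  have hN : (0 : ℝ) < N := by exact_mod_cast Nat.pos_of_ne_zero (NeZero.ne N)
  have hHLF := HLF_of_LF hLF
  have hC0 : C0 N k (fun s => ν s - 1) ε₂ := by
    refine psd k N hcop (fun s => ν s - 1) ε₂ ?_
    exact hcut (ZMod N) (fun j x => ν (psi j x)) (fun j => ind_psi j ν)
      (HLF_mono hHLF (min_le_right _ _)) 0
  obtain ⟨g, hg, hg2⟩ := hdmt N ν f hC0 hf0 hfν
  have hcount := hcnt (ZMod N) (fun j x => ν (psi j x)) (fun j x => f (psi j x))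
    (fun j x => g (psi j x)) (fun j => ind_psi j ν) (fun j => ind_psi j f)
    (fun j => ind_psi j g) (fun j x => (hf0 _).trans (hfν _))
    (HLF_mono hHLF (min_le_left _ _)) (fun j x => hf0 _) (fun j _ x => hfν _)
    (fun j hj => absurd (mem_univ j) hj) (fun j x => (hg _).1) (fun j x => (hg _).2)
    (fun j => Cut_mono (psc k N hcop (fun s => f s - g s) _ hg2 j) (min_le_left _ _))
  have hpf := psa (k + 1) N (by omega) (fun _ => f)
  have hpg := psa (k + 1) N (by omega) (fun _ => g)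
  rw [hpf, hpg] at hcount
  -- the average of g
  obtain ⟨-, -, -, -, g5⟩ := gna N k hk1
  have hav := g5 (fun s => f s - g s) _ hg2
  rw [av_sub] at hav
  have hav2 : av f - av g ≤ δ / 2 := (le_abs_self _).trans (hav.trans (min_le_right _ _))
  have hgsum : δ / 2 * N ≤ ∑ x, g x := by
    rw [← av_z]
    rw [← av_z] at hsum
    have h1 : δ ≤ av f := le_of_mul_le_mul_right hsum hN
    exact mul_le_mul_of_nonneg_right (by linarith) hN.le
  have hs := hsze N g (fun x => (hg x).1) (fun x => (hg x).2) hgsum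
  have e : ∀ F : ZMod N → ℝ, ∑ a : ZMod N, ∑ d : ZMod N, ∏ j ∈ Finset.range (k + 1), F (a + j * d) =
      av (fun q : ZMod N × ZMod N => ∏ j : Fin (k + 1), F (q.1 + ((j : ℕ) : ZMod N) * q.2)) *
        (N : ℝ) ^ 2 := by
    intro F
    rw [av_zz (fun a d => ∏ j : Fin (k + 1), F (a + ((j : ℕ) : ZMod N) * d))]
    refine Finset.sum_congr rfl fun a _ => Finset.sum_congr rfl fun d _ => ?_
    exact Finset.prod_range (fun j : ℕ => F (a + j * d))
  rw [e] at hs ⊢
  have hN2 : (0 : ℝ) < (N : ℝ) ^ 2 := by positivity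
  have h1 : c₀ ≤ av (fun q : ZMod N × ZMod N => ∏ j : Fin (k + 1),
      g (q.1 + ((j : ℕ) : ZMod N) * q.2)) := le_of_mul_le_mul_right hs hN2
  refine mul_le_mul_of_nonneg_right ?_ hN2.le
  have h2 := (abs_le.1 hcount).1
  linarith

end Pool.Agent.GT.H41
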