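import Pool.Agent.GT.StmtsB

/-! GT, B_SEP: separation in finite dimension. -/

namespace Pool.Agent.GT.H41

open Finset

theorem av_cont {Z : Type} [Fintype Z] (f φ : Z → ℝ) :
    Continuous fun g : Z → ℝ => av (fun s => (f s - g s) * φ s) := by
  unfold av
  fun_prop

theorem sep : SepStmt := by
  intro Z _ _ G f η h
  classical
  set D : Set (Z → ℝ) := Set.Icc (fun _ => 0) (fun _ => 1) with hD
  have memD : ∀ g : Z → ℝ, g ∈ D ↔ ∀ s, 0 ≤ g s ∧ g s ≤ 1 := by
    intro g
    rw [hD, Set.mem_Icc, Pi.le_def, Pi.le_def]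
    exact ⟨fun h s => ⟨h.1 s, h.2 s⟩, fun h => ⟨fun s => (h s).1, fun s => (h s).2⟩⟩
  have hDc : IsCompact D := isCompact_Icc
  have hDx : Convex ℝ D := convex_Icc _ _
  obtain ⟨t, ht⟩ := hDc.elim_finite_subcover
    (fun φ : G => {g : Z → ℝ | η < av (fun s => (f s - g s) * φ.1 s)})
    (fun φ => isOpen_lt continuous_const (av_cont f φ.1))
    (by
      intro g hg
      obtain ⟨φ, hφ, hlt⟩ := h g ((memD g).1 hg)
      exact Set.mem_iUnion.2 ⟨⟨φ, hφ⟩, hlt⟩)
  -- the affine map
  set A : (Z → ℝ) → (t → ℝ) := fun g i => av (fun s => (f s - g s) * i.1.1 s) with hA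
  have hAc : Continuous A := continuous_pi fun i => av_cont f i.1.1
  have hQc : IsCompact (A '' D) := hDc.image hAc
  have hQx : Convex ℝ (A '' D) := by
    rintro _ ⟨g, hg, rfl⟩ _ ⟨g', hg', rfl⟩ a b ha hb hab
    refine ⟨a • g + b • g', hDx hg hg' ha hb hab, ?_⟩
    funext i
    simp only [hA, Pi.add_apply, Pi.smul_apply, smul_eq_mul]
    rw [← av_mul_left, ← av_mul_left, ← av_add]
    congr 1
    funext s
    have hb2 : b = 1 - a := by linarith
    rw [hb2]
    ring
  set C : Set (t → ℝ) := {v | ∀ i, v i ≤ η} with hCdef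
  have hCx : Convex ℝ C := by
    intro v hv w hw a b ha hb hab i
    simp only [Pi.add_apply, Pi.smul_apply, smul_eq_mul]
    have h1 := mul_le_mul_of_nonneg_left (hv i) ha
    have h2 := mul_le_mul_of_nonneg_left (hw i) hb
    have h3 : a * η + b * η = η := by rw [← add_mul, hab, one_mul]
    linarith
  have hCc : IsClosed C := by
    have : C = ⋂ i, {v : t → ℝ | v i ≤ η} := by
      ext v
      simp [hCdef]
    rw [this]
    exact isClosed_iInter fun i => isClosed_le (continuous_apply i) continuous_const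
  have hdisj : Disjoint C (A '' D) := by
    rw [Set.disjoint_left]
    rintro v hv ⟨g, hg, rfl⟩
    obtain ⟨φ, hφ, hlt⟩ := Set.mem_iUnion₂.1 (ht hg)
    have h1 := hv ⟨φ, hφ⟩
    have h2 : η < av (fun s => (f s - g s) * φ.1 s) := hlt
    exact absurd h1 (not_le.2 h2)
  obtain ⟨l, u, v, hlC, huv, hlQ⟩ := geometric_hahn_banach_closed_compact hCx hCc hQx hQc hdisj
  set w : t → ℝ := fun i => l (Pi.single i 1) with hw
  have hlsum : ∀ x : t → ℝ, l x = ∑ i, w i * x i := by
    intro x
    have h1 : x = ∑ i, x i • (Pi.single i 1 : t → ℝ) := by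
      funext j
      simp [Finset.sum_apply, Pi.single_apply]
    conv_lhs => rw [h1]
    rw [map_sum]
    refine Finset.sum_congr rfl fun i _ => ?_
    rw [map_smul, smul_eq_mul, mul_comm]
  have hηC : (fun _ => η : t → ℝ) ∈ C := fun i => le_refl η
  have hη := hlC _ hηC
  have hw0 : ∀ i, 0 ≤ w i := by
    intro i
    by_contra hneg
    push Not at hneg
    set T : ℝ := (u - l (fun _ => η)) / (-w i) with hT
    have hT0 : 0 ≤ T := div_nonneg (by linarith) (by linarith)
    have hmem : ((fun _ => η : t → ℝ) - T • (Pi.single i 1 : t → ℝ)) ∈ C := by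
      intro j
      simp only [Pi.sub_apply, Pi.smul_apply, smul_eq_mul]
      by_cases hij : j = i
      · subst hij
        simp only [Pi.single_eq_same]
        linarith
      · rw [Pi.single_eq_of_ne hij]
        linarith
    have h1 := hlC _ hmem
    rw [map_sub, map_smul, smul_eq_mul] at h1
    have h2 : T * l (Pi.single i 1) = -(u - l (fun _ => η)) := by
      show T * w i = _
      rw [hT, div_mul_eq_mul_div, div_eq_iff (by linarith)]
      ring
    rw [h2] at h1
    linarith
  have hz : (fun _ => 0 : Z → ℝ) ∈ D := (memD _).2 fun s => ⟨le_refl 0, zero_le_one⟩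
  have hL : 0 < ∑ i, w i := by
    rcases (Finset.sum_nonneg fun i (_ : i ∈ univ) => hw0 i).eq_or_lt with h0 | h0
    · exfalso
      have hall : ∀ i, w i = 0 := fun i =>
        (Finset.sum_eq_zero_iff_of_nonneg fun i _ => hw0 i).1 h0.symm i (mem_univ i)
      have hl0 : ∀ x, l x = 0 := by
        intro x
        rw [hlsum]
        exact Finset.sum_eq_zero fun i _ => by rw [hall i, zero_mul]
      have h1 := hlQ _ ⟨_, hz, rfl⟩
      rw [hl0] at h1
      rw [hl0] at hη
      linarith
    · exact h0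
  set L : ℝ := ∑ i, w i with hLdef
  refine ⟨∑ i : t, (w i / L) • (i.1.1 : Z → ℝ), ?_, ?_⟩
  · refine (convex_convexHull ℝ G).sum_mem (fun i _ => div_nonneg (hw0 i) hL.le) ?_
      (fun i _ => subset_convexHull ℝ G i.1.2)
    rw [← Finset.sum_div]
    exact div_self hL.ne'
  · intro g hg
    have h1 := hlQ _ ⟨g, (memD g).2 hg, rfl⟩
    rw [hlsum] at h1 hη
    have h2 : ∑ i, w i * η = L * η := by rw [← Finset.sum_mul]
    rw [h2] at hη
    have h3 : ∑ i, w i * A g i = L * av (fun s => (f s - g s) *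
        (∑ i : t, (w i / L) • (i.1.1 : Z → ℝ)) s) := by
      rw [← av_mul_left]
      have h4 : ∀ i, w i * A g i = av (fun s => w i * ((f s - g s) * i.1.1 s)) := fun i => by
        rw [av_mul_left]
      simp only [h4]
      rw [← av_sum]
      congr 1
      funext s
      rw [Finset.sum_apply, Finset.mul_sum, Finset.mul_sum]
      refine Finset.sum_congr rfl fun i _ => ?_
      simp only [Pi.smul_apply, smul_eq_mul]
      field_simp
    rw [h3] at h1
    have h5 : L * η < L * av (fun s => (f s - g s) *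
        (∑ i : t, (w i / L) • (i.1.1 : Z → ℝ)) s) := by linarith
    exact lt_of_mul_lt_mul_left h5 hL.le

end Pool.Agent.GT.H41
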