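import Pool.Agent.GT.StmtsC

/-! GT, C_LFG: the linear forms condition. -/

namespace Pool.Agent.GT.H41

open Finset

theorem abs_avb_le {σ ι : Type} [Fintype σ] [Fintype ι] [DecidableEq σ] [DecidableEq ι]
    (L : σ → ι → ℤ) (W b : ℕ) (A C : σ → Finset ℕ) {N : ℕ} (z : ι → ZMod N) :
    |avb L W b A C z| ≤ 1 := by
  unfold avb
  rw [abs_of_nonneg (by positivity)]
  refine div_le_one_of_le₀ ?_ (by positivity)
  have h1 : (univ.filter fun h : ι → Fin (DD A C) =>
    ∀ s, nn (A s ∪ C s) ∣ W * (ev L s (fun i => z i + ((h i : ℕ) : ZMod N))).val + b).card ≤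
      (DD A C) ^ Fintype.card ι := by
    refine (Finset.card_filter_le _ _).trans ?_
    rw [card_univ, Fintype.card_fun, Fintype.card_fin]
  exact_mod_cast h1

theorem c_lfg (lamS : LamStmt) (exc : ExcStmt) (loc : LocStmt) (avd : AvdStmt) (tra : TraStmt)
    (brb : BrbStmt) (bad : BadStmt) : LfgStmt := by
  intro σ ι _ _ _ _ B L W b P R N _ hGood hP hR
  set m : ℕ := Fintype.card σ with hm
  set d : ℕ := Fintype.card ι with hd
  have hPp : ∀ p ∈ P, p.Prime := fun p hp => (hP p hp).1
  have hNR : (0 : ℝ) < N := by exact_mod_cast Nat.pos_of_ne_zero (NeZero.ne N)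
  set E : ℝ := ∏ p ∈ P, (1 + 40 ^ m / (p : ℝ) ^ 2) - 1 with hE
  have hE0 : 0 ≤ E := by
    have h1 : 1 ≤ ∏ p ∈ P, (1 + 40 ^ m / (p : ℝ) ^ 2) := by
      calc (1 : ℝ) = ∏ p ∈ P, (1 : ℝ) := by rw [Finset.prod_const_one]
        _ ≤ ∏ p ∈ P, (1 + 40 ^ m / (p : ℝ) ^ 2) := by
            refine Finset.prod_le_prod (fun p _ => zero_le_one) fun p _ => ?_
            have : (0 : ℝ) ≤ 40 ^ m / (p : ℝ) ^ 2 := by positivity
            linarith
    linarith
  set T : ℕ := B * d * R ^ (2 * m) with hT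
  obtain ⟨lam0, lam1, lamR⟩ := lamS P R hPp hR
  -- good points
  have hgood : ∀ z : ι → ZMod N, Gd L T z →
      |brk P R (fun A C : σ → Finset ℕ => avb L W b A C z) - 1| ≤ E := by
    intro z hz
    have h1 : brk P R (fun A C : σ → Finset ℕ => avb L W b A C z) =
        brk P R (fun A C : σ → Finset ℕ =>
          ∏ p ∈ P, al L W b (fun s => ((ev L s z).val : ℤ)) p (TT A C p)) := by
      unfold brk
      congr 1
      refine Finset.sum_congr rfl fun A hA => Finset.sum_congr rfl fun C hC => ?_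
      rw [Fintype.mem_piFinset] at hA hC
      by_cases hsmall : ∀ s, nn (A s) < R ∧ nn (C s) < R
      · have h2 := avd σ ι B L W b P R N z A C hGood.1 hPp (fun s =>
          ⟨mem_powerset.1 (hA s), mem_powerset.1 (hC s), (hsmall s).1, (hsmall s).2⟩) hz
        show _ * avb L W b A C z = _
        rw [h2]
      · push Not at hsmall
        obtain ⟨s, hs⟩ := hsmall
        have h0 : ∏ s, lam P R (A s) * lam P R (C s) = 0 := by
          refine Finset.prod_eq_zero (mem_univ s) ?_
          by_cases hAs : nn (A s) < R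
          · rw [lamR (C s) (hs hAs), mul_zero]
          · rw [lamR (A s) (not_lt.1 hAs), zero_mul]
        rw [h0, zero_mul, zero_mul]
    rw [h1]
    exact exc σ P R (fun p => al L W b (fun s => ((ev L s z).val : ℤ)) p) hPp hR
      (fun p hp => loc σ ι B L W b _ p hGood (hP p hp).1 (hP p hp).2.1 (hP p hp).2.2)
  -- all points
  have hR1 : (1 : ℝ) ≤ R := by exact_mod_cast (by omega : 1 ≤ R)
  have hall : ∀ z : ι → ZMod N,
      |brk P R (fun A C : σ → Finset ℕ => avb L W b A C z) - 1| ≤ 2 * (R : ℝ) ^ (3 * m) := by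
    intro z
    have h1 := brb σ P R (fun A C : σ → Finset ℕ => avb L W b A C z) hPp hR
      (fun A C => abs_avb_le L W b A C z)
    have h2 : (1 : ℝ) ≤ (R : ℝ) ^ (3 * m) := one_le_pow₀ hR1
    calc |brk P R (fun A C : σ → Finset ℕ => avb L W b A C z) - 1| ≤
          |brk P R (fun A C : σ → Finset ℕ => avb L W b A C z)| + |(1 : ℝ)| := abs_sub _ _
      _ ≤ (R : ℝ) ^ (3 * m) + (R : ℝ) ^ (3 * m) := by
          rw [abs_one]
          exact add_le_add h1 h2
      _ = 2 * (R : ℝ) ^ (3 * m) := by ring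
  obtain ⟨S, hS1, hS2⟩ := bad σ ι B L N T hGood
  rw [tra σ ι L W b P R N hPp]
  have hNd : (0 : ℝ) < (N : ℝ) ^ d := by positivity
  have hcard : ((univ : Finset (ι → ZMod N)).card : ℝ) = (N : ℝ) ^ d := by
    rw [card_univ, Fintype.card_fun, ZMod.card]
    push_cast
    rfl
  have hsub : (∑ z : ι → ZMod N, brk P R (fun A C : σ → Finset ℕ => avb L W b A C z)) / (N : ℝ) ^ d - 1 =
      (∑ z : ι → ZMod N, (brk P R (fun A C : σ → Finset ℕ => avb L W b A C z) - 1)) / (N : ℝ) ^ d := by
    rw [Finset.sum_sub_distrib, Finset.sum_const, nsmul_eq_mul, mul_one, hcard, sub_div,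
      div_self hNd.ne']
  rw [hsub, abs_div, abs_of_pos hNd, div_le_iff₀ hNd]
  classical
  calc |∑ z : ι → ZMod N, (brk P R (fun A C : σ → Finset ℕ => avb L W b A C z) - 1)| ≤
        ∑ z : ι → ZMod N, |brk P R (fun A C : σ → Finset ℕ => avb L W b A C z) - 1| :=
        Finset.abs_sum_le_sum_abs _ _
    _ ≤ ∑ z : ι → ZMod N, (E + if z ∈ S then 2 * (R : ℝ) ^ (3 * m) else 0) := by
        refine Finset.sum_le_sum fun z _ => ?_
        by_cases hz : z ∈ S
        · rw [if_pos hz]
          have := hall z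
          linarith
        · rw [if_neg hz, add_zero]
          refine hgood z ?_
          by_contra h
          exact hz (hS1 z h)
    _ = (N : ℝ) ^ d * E + S.card * (2 * (R : ℝ) ^ (3 * m)) := by
        rw [Finset.sum_add_distrib, Finset.sum_const, nsmul_eq_mul, hcard, Finset.sum_ite_mem,
          Finset.univ_inter, Finset.sum_const, nsmul_eq_mul]
    _ ≤ (E + 4 * m * B * d * (R : ℝ) ^ (5 * m) / N) * (N : ℝ) ^ d := by
        have h3 : (S.card : ℝ) ≤ 2 * m * T * (N : ℝ) ^ d / N := by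
          rw [le_div_iff₀ hNR]
          exact hS2
        have h4 : (S.card : ℝ) * (2 * (R : ℝ) ^ (3 * m)) ≤
            2 * m * T * (N : ℝ) ^ d / N * (2 * (R : ℝ) ^ (3 * m)) :=
          mul_le_mul_of_nonneg_right h3 (by positivity)
        have h5 : 2 * (m : ℝ) * T * (N : ℝ) ^ d / N * (2 * (R : ℝ) ^ (3 * m)) =
            4 * m * B * d * (R : ℝ) ^ (5 * m) / N * (N : ℝ) ^ d := by
          have e1 : (T : ℝ) = B * d * (R : ℝ) ^ (2 * m) := by
            rw [hT]
            push_cast
            ring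
          have e2 : (R : ℝ) ^ (5 * m) = (R : ℝ) ^ (2 * m) * (R : ℝ) ^ (3 * m) := by
            rw [← pow_add]
            congr 1
            ring
          rw [e1, e2]
          ring
        rw [h5] at h4
        linarith

end Pool.Agent.GT.H41
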