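import Pool.Agent.GT.StmtsC

/-! GT, C_QQB, C_SST, C_EPS. -/

namespace Pool.Agent.GT.H41

open Finset

theorem gg_nonneg {r : Finset ℕ} (h : ∀ p ∈ r, p.Prime) : 0 ≤ gg r := by
  unfold gg
  refine Finset.prod_nonneg fun p hp => ?_
  have h1 : (2 : ℝ) ≤ p := by exact_mod_cast (h p hp).two_le
  exact div_nonneg zero_le_one (by linarith)

theorem nn_empty : nn ∅ = 1 := by simp [nn]

theorem c_qqb (qqq : QqqStmt) (lvc : LvcStmt) : QqbStmt := by
  intro P R t hP hR ht
  obtain ⟨-, hG1, -⟩ := lvc P R hP hR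
  have hG : 0 < GG P R := by linarith
  have hgg : ∀ r ∈ lv P R, 0 ≤ gg r := by
    intro r hr
    refine gg_nonneg fun p hp => hP p ?_
    unfold lv at hr
    rw [mem_filter, mem_powerset] at hr
    exact hr.1 hp
  refine ⟨?_, ?_, ?_⟩
  · rw [qqq P R t hP hR ht]
    refine div_nonneg (Finset.sum_nonneg fun r hr => ?_) (by positivity)
    exact mul_nonneg (hgg r (mem_of_mem_filter r hr)) (sq_nonneg _)
  · rw [qqq P R t hP hR ht]
    have h1 : ∑ r ∈ (lv P R).filter (fun r => Disjoint r t),
        gg r * (∑ s ∈ t.powerset, if nn r * nn s < R then (-1 : ℝ) ^ s.card else 0) ^ 2 ≤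
        GG P R * 4 ^ t.card := by
      have h2 : ∀ r : Finset ℕ,
          (∑ s ∈ t.powerset, if nn r * nn s < R then (-1 : ℝ) ^ s.card else 0) ^ 2 ≤
          4 ^ t.card := by
        intro r
        have h3 : |∑ s ∈ t.powerset, if nn r * nn s < R then (-1 : ℝ) ^ s.card else 0| ≤
            2 ^ t.card := by
          refine (Finset.abs_sum_le_sum_abs _ _).trans ?_
          calc ∑ s ∈ t.powerset, |if nn r * nn s < R then (-1 : ℝ) ^ s.card else 0| ≤
                ∑ s ∈ t.powerset, (1 : ℝ) := by
                refine Finset.sum_le_sum fun s _ => ?_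
                split_ifs
                · rw [abs_pow, abs_neg, abs_one, one_pow]
                · rw [abs_zero]; exact zero_le_one
            _ = 2 ^ t.card := by
                rw [Finset.sum_const, card_powerset, nsmul_eq_mul, mul_one]
                push_cast
                rfl
        rw [← sq_abs]
        calc |∑ s ∈ t.powerset, if nn r * nn s < R then (-1 : ℝ) ^ s.card else 0| ^ 2 ≤
              (2 ^ t.card) ^ 2 := pow_le_pow_left₀ (abs_nonneg _) h3 2
          _ = 4 ^ t.card := by
              rw [← pow_mul, mul_comm, pow_mul]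
              norm_num
      calc ∑ r ∈ (lv P R).filter (fun r => Disjoint r t),
            gg r * (∑ s ∈ t.powerset, if nn r * nn s < R then (-1 : ℝ) ^ s.card else 0) ^ 2 ≤
            ∑ r ∈ (lv P R).filter (fun r => Disjoint r t), gg r * 4 ^ t.card :=
            Finset.sum_le_sum fun r hr =>
              mul_le_mul_of_nonneg_left (h2 r) (hgg r (mem_of_mem_filter r hr))
        _ = (∑ r ∈ (lv P R).filter (fun r => Disjoint r t), gg r) * 4 ^ t.card := by
            rw [Finset.sum_mul]
        _ ≤ GG P R * 4 ^ t.card := by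
            refine mul_le_mul_of_nonneg_right ?_ (by positivity)
            unfold GG
            exact Finset.sum_le_sum_of_subset_of_nonneg (filter_subset _ _)
              fun r hr _ => hgg r hr
    rw [div_le_div_iff₀ (by positivity) hG]
    calc (∑ r ∈ (lv P R).filter (fun r => Disjoint r t),
          gg r * (∑ s ∈ t.powerset, if nn r * nn s < R then (-1 : ℝ) ^ s.card else 0) ^ 2) *
          GG P R ≤ (GG P R * 4 ^ t.card) * GG P R := mul_le_mul_of_nonneg_right h1 hG.le
      _ = 4 ^ t.card * GG P R ^ 2 := by ring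
  · rw [qqq P R ∅ hP hR (empty_subset _)]
    have h1 : ∑ r ∈ (lv P R).filter (fun r => Disjoint r ∅),
        gg r * (∑ s ∈ (∅ : Finset ℕ).powerset, if nn r * nn s < R then (-1 : ℝ) ^ s.card else 0) ^ 2 =
        GG P R := by
      unfold GG
      have h2 : (lv P R).filter (fun r => Disjoint r ∅) = lv P R :=
        Finset.filter_true_of_mem fun r _ => Finset.disjoint_empty_right r
      rw [h2]
      refine Finset.sum_congr rfl fun r hr => ?_
      have h3 : nn r < R := by
        unfold lv at hr
        exact (mem_filter.1 hr).2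
      rw [Finset.powerset_empty, Finset.sum_singleton, nn_empty, mul_one, if_pos h3]
      simp
    rw [h1]
    field_simp

theorem c_sst : SstStmt := by
  intro P R t hP ht
  have hne : ∀ p ∈ t, (1 - 1 / (p : ℝ)) ≠ 0 := by
    intro p hp
    have h1 : (2 : ℝ) ≤ p := by exact_mod_cast (hP p (ht hp)).two_le
    have h2 : 1 / (p : ℝ) ≤ 1 / 2 := one_div_le_one_div_of_le (by norm_num) h1
    intro h
    linarith
  have hkey : ∀ c : Finset ℕ, ∑ u ∈ t.powerset, (-1 : ℝ) ^ u.card * iw (c \ (t \ u)) =
      if t ⊆ c then (∏ p ∈ t, (1 - 1 / (p : ℝ))) * iw (c \ t) else 0 := by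
    intro c
    have h1 : ∀ u ∈ t.powerset, (-1 : ℝ) ^ u.card * iw (c \ (t \ u)) =
        iw (c \ t) * ∏ p ∈ u, (-(if p ∈ c then 1 / (p : ℝ) else 1)) := by
      intro u hu
      rw [mem_powerset] at hu
      have e1 : c \ (t \ u) = (c \ t) ∪ (u.filter fun p => p ∈ c) := by
        ext p
        simp only [mem_sdiff, mem_union, mem_filter]
        constructor
        · rintro ⟨h1, h2⟩
          by_cases h3 : p ∈ t
          · right
            refine ⟨?_, h1⟩
            by_contra h4
            exact h2 ⟨h3, h4⟩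
          · exact Or.inl ⟨h1, h3⟩
        · rintro (⟨h1, h2⟩ | ⟨h1, h2⟩)
          · exact ⟨h1, fun h => h2 h.1⟩
          · exact ⟨h2, fun h => h.2 h1⟩
      have hd : Disjoint (c \ t) (u.filter fun p => p ∈ c) := by
        rw [Finset.disjoint_left]
        intro p h1 h2
        exact (mem_sdiff.1 h1).2 (hu (mem_filter.1 h2).1)
      rw [e1]
      unfold iw
      rw [Finset.prod_union hd, Finset.prod_filter]
      have e2 : ∏ p ∈ u, (-(if p ∈ c then 1 / (p : ℝ) else 1)) =
          (-1 : ℝ) ^ u.card * ∏ p ∈ u, (if p ∈ c then 1 / (p : ℝ) else 1) := by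
        rw [Finset.prod_neg]
      rw [e2]
      ring
    rw [Finset.sum_congr rfl h1, ← Finset.mul_sum, ← Finset.prod_one_add]
    by_cases htc : t ⊆ c
    · rw [if_pos htc, mul_comm]
      congr 1
      refine Finset.prod_congr rfl fun p hp => ?_
      rw [if_pos (htc hp)]
      ring
    · rw [if_neg htc]
      obtain ⟨p, hp, hpc⟩ := Finset.not_subset.1 htc
      rw [Finset.prod_eq_zero hp, mul_zero]
      rw [if_neg hpc]
      ring
  have hsum : ∑ u ∈ t.powerset, (-1 : ℝ) ^ u.card * QQ P R (t \ u) =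
      (∏ p ∈ t, (1 - 1 / (p : ℝ))) * SS P R t := by
    unfold QQ SS
    simp only [Finset.mul_sum]
    rw [Finset.sum_comm]
    refine Finset.sum_congr rfl fun a _ => ?_
    rw [Finset.sum_comm]
    refine Finset.sum_congr rfl fun b _ => ?_
    have h2 := hkey (a ∪ b)
    calc ∑ u ∈ t.powerset, (-1 : ℝ) ^ u.card * (lam P R a * lam P R b * iw ((a ∪ b) \ (t \ u))) =
          lam P R a * lam P R b * ∑ u ∈ t.powerset, (-1 : ℝ) ^ u.card * iw ((a ∪ b) \ (t \ u)) := by
          rw [Finset.mul_sum]
          exact Finset.sum_congr rfl fun u _ => by ring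
      _ = (∏ p ∈ t, (1 - 1 / (p : ℝ))) * (if t ⊆ a ∪ b then
          lam P R a * lam P R b * iw ((a ∪ b) \ t) else 0) := by
          rw [h2]
          split_ifs
          · ring
          · ring
  rw [hsum, ← mul_assoc, ← Finset.prod_mul_distrib,
    Finset.prod_eq_one fun p hp => inv_mul_cancel₀ (hne p hp), one_mul]

theorem c_eps : EpsStmt := by
  intro C ε hC hε
  have hs : Summable (fun n : ℕ => 1 / (n : ℝ) ^ 2) :=
    Real.summable_one_div_nat_pow.mpr (by norm_num)
  have hlog : 0 < Real.log (1 + ε) := Real.log_pos (by linarith)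
  obtain ⟨s, hs2⟩ := summable_iff_vanishing_norm.1 hs (Real.log (1 + ε) / (C + 1))
    (div_pos hlog (by linarith))
  refine ⟨s.sup id, fun P hP => ?_⟩
  have hdis : Disjoint P s := by
    rw [Finset.disjoint_left]
    intro p hp hps
    have h1 : p ≤ s.sup id := Finset.le_sup (f := id) hps
    have h2 := hP p hp
    omega
  have h3 := hs2 P hdis
  have h4 : ∑ p ∈ P, 1 / (p : ℝ) ^ 2 ≤ Real.log (1 + ε) / (C + 1) :=
    (le_abs_self _).trans h3.le
  have h5 : ∏ p ∈ P, (1 + C / (p : ℝ) ^ 2) ≤ Real.exp (∑ p ∈ P, C / (p : ℝ) ^ 2) := by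
    rw [Real.exp_sum]
    refine Finset.prod_le_prod (fun p _ => by positivity) fun p _ => ?_
    rw [add_comm]
    exact Real.add_one_le_exp _
  have h6 : ∑ p ∈ P, C / (p : ℝ) ^ 2 ≤ Real.log (1 + ε) := by
    have e1 : ∑ p ∈ P, C / (p : ℝ) ^ 2 = C * ∑ p ∈ P, 1 / (p : ℝ) ^ 2 := by
      rw [Finset.mul_sum]
      exact Finset.sum_congr rfl fun p _ => by ring
    rw [e1]
    calc C * ∑ p ∈ P, 1 / (p : ℝ) ^ 2 ≤ C * (Real.log (1 + ε) / (C + 1)) :=
          mul_le_mul_of_nonneg_left h4 hC
      _ = Real.log (1 + ε) * (C / (C + 1)) := by ring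
      _ ≤ Real.log (1 + ε) * 1 := by
          refine mul_le_mul_of_nonneg_left ?_ hlog.le
          rw [div_le_one (by linarith)]
          linarith
      _ = Real.log (1 + ε) := mul_one _
  have h7 := Real.exp_le_exp.mpr h6
  rw [Real.exp_log (by linarith)] at h7
  linarith

end Pool.Agent.GT.H41
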