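import Pool.Agent.GT.StmtsC

/-! GT, C_WIN, C_GTM. -/

namespace Pool.Agent.GT.H41

open Finset

theorem c_win : WinStmt := by
  intro K B₀ W n₀ hB hW
  set F : ℕ := (K - 1).factorial with hF
  have hF1 : 1 ≤ F := Nat.factorial_pos _
  set m₀ : ℕ := 3 * F + 4 + (n₀ + 2) ^ B₀ + n₀ + W with hm₀
  refine ⟨W * m₀ + 4, fun X b' hX hb => ?_⟩
  set m : ℕ := X / W with hm
  have hmge : m₀ ≤ m := by
    rw [hm, Nat.le_div_iff_mul_le hW, mul_comm]
    omega
  have hWm : W * m ≤ X := Nat.mul_div_le X W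
  have hXm : X < W * (m + 1) := by
    have := Nat.lt_mul_div_succ X hW
    exact this
  set q : ℕ := (4 * m - 1) / F with hq
  set N : ℕ := F * q + 1 with hN
  have h1 : F * q ≤ 4 * m - 1 := Nat.mul_div_le _ _
  have h2 : 4 * m - 1 < F * (q + 1) := Nat.lt_mul_div_succ _ hF1
  have h2' : 4 * m - 1 < F * q + F := by rw [mul_add, mul_one] at h2; exact h2
  have hN4 : N ≤ 4 * m := by omega
  have hN3 : 8 * m + 4 < 3 * N := by omega
  have hNm : m < N := by omega
  set R : ℕ := Nat.findGreatest (fun r => r ^ B₀ ≤ N) N with hR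
  have hB0 : B₀ ≠ 0 := by omega
  have hself : ∀ r : ℕ, r ≤ r ^ B₀ := fun r => Nat.le_self_pow hB0 r
  have hRpow : R ^ B₀ ≤ N := by
    have : (fun r => r ^ B₀ ≤ N) (Nat.findGreatest (fun r => r ^ B₀ ≤ N) N) :=
      Nat.findGreatest_spec (P := fun r => r ^ B₀ ≤ N) (m := 0) (Nat.zero_le _) (by
        show 0 ^ B₀ ≤ N
        rw [zero_pow hB0]
        exact Nat.zero_le _)
    exact this
  have hRmax : ∀ r : ℕ, r ^ B₀ ≤ N → r ≤ R := fun r hr =>
    Nat.le_findGreatest ((hself r).trans hr) hr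
  have hRn : n₀ + 2 ≤ R := hRmax _ (by omega)
  have hlt : N < (R + 1) ^ B₀ := by
    by_contra h
    push Not at h
    have := hRmax _ h
    omega
  have hsq : R ^ 2 ≤ R ^ B₀ := Nat.pow_le_pow_right (by omega) hB
  have hRX : R ≤ X := by
    by_contra h
    push Not at h
    have h4 : 4 ≤ X := by omega
    have h5 : R ^ 2 ≤ 4 * X := by
      calc R ^ 2 ≤ N := hsq.trans hRpow
        _ ≤ 4 * m := hN4
        _ ≤ 4 * (W * m) := Nat.mul_le_mul_left _ (Nat.le_mul_of_pos_left _ hW)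
        _ ≤ 4 * X := Nat.mul_le_mul_left _ hWm
    nlinarith
  refine ⟨N, R, by omega, ?_, by omega, by omega, by omega, hRpow, hRX, ?_, ?_, ?_⟩
  · rw [hN, mul_comm F q]
    exact (Nat.coprime_mul_right_add_left 1 F q).mpr (Nat.coprime_one_left F)
  · -- logarithms
    have hXN : X ≤ N ^ 2 := by
      have h5 : W * (m + 1) ≤ N * N := Nat.mul_le_mul (by omega) (by omega)
      rw [sq]
      omega
    have hR1 : R + 1 ≤ R ^ 2 := by nlinarith
    have hXR : X ≤ R ^ (4 * B₀) := by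
      calc X ≤ N ^ 2 := hXN
        _ ≤ ((R + 1) ^ B₀) ^ 2 := Nat.pow_le_pow_left hlt.le 2
        _ ≤ ((R ^ 2) ^ B₀) ^ 2 := Nat.pow_le_pow_left (Nat.pow_le_pow_left hR1 B₀) 2
        _ = R ^ (4 * B₀) := by
            rw [← pow_mul, ← pow_mul]
            congr 1
            ring
    have hXpos : (0 : ℝ) < X := by exact_mod_cast (by omega : 0 < X)
    have h6 : (X : ℝ) ≤ (R : ℝ) ^ (4 * B₀) := by exact_mod_cast hXR
    have h7 := Real.log_le_log hXpos h6
    rw [Real.log_pow] at h7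
    push_cast at h7
    exact h7
  · have hWR : (0 : ℝ) < W := by exact_mod_cast hW
    rw [le_div_iff₀ hWR]
    have h5 : N * W ≤ 4 * X := by
      calc N * W ≤ 4 * m * W := Nat.mul_le_mul_right _ hN4
        _ = 4 * (W * m) := by ring
        _ ≤ 4 * X := Nat.mul_le_mul_left _ hWm
    exact_mod_cast h5
  · intro n hn1 hn2
    have h5 : m ≤ n := by
      by_contra h
      push Not at h
      have h6 : W * (n + 1) ≤ W * m := Nat.mul_le_mul_left _ h
      rw [mul_add, mul_one] at h6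
      omega
    have h7 : n < 2 * (m + 1) := by
      by_contra h
      push Not at h
      have h8 : W * (2 * (m + 1)) ≤ W * n := Nat.mul_le_mul_left _ h
      have h9 : W * (2 * (m + 1)) = 2 * (W * (m + 1)) := by ring
      omega
    omega

/-- the sequences of primes -/
theorem prime_seq (K M b W b' n₀ : ℕ) (hW : 0 < W) (hMW : M ∣ W) (hb : b' ≡ b [MOD M])
    (y : ℕ → ℕ) (e : ℕ) (he : 0 < e) (hy : ∀ j < K, y j = y 0 + j * e)
    (hy0 : n₀ ≤ y 0) (hp : ∀ j < K, (W * y j + b').Prime) :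
    ∃ a d : ℕ, n₀ ≤ a ∧ 0 < d ∧ M ∣ d ∧ ∀ j < K, (a + j * d).Prime ∧ a + j * d ≡ b [MOD M] := by
  refine ⟨W * y 0 + b', W * e, ?_, Nat.mul_pos hW he, Dvd.dvd.mul_right hMW e, fun j hj => ?_⟩
  · have : y 0 ≤ W * y 0 := Nat.le_mul_of_pos_left _ hW
    omega
  · have e1 : W * y 0 + b' + j * (W * e) = W * y j + b' := by
      rw [hy j hj]
      ring
    rw [e1]
    refine ⟨hp j hj, ?_⟩
    have h1 : W * y j ≡ 0 [MOD M] := (Nat.modEq_zero_iff_dvd).2 (Dvd.dvd.mul_right hMW _)
    have h2 := h1.add hb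
    rw [zero_add] at h2
    exact h2

theorem c_gtm : GtmStmt := by
  intro rel maj K' M b hM hb n₀
  -- it suffices to treat max K' 3
  obtain ⟨K, hK3, hKK⟩ : ∃ K, 3 ≤ K ∧ K' ≤ K := ⟨max K' 3, le_max_right _ _, le_max_left _ _⟩
  suffices h : ∃ a d : ℕ, n₀ ≤ a ∧ 0 < d ∧ M ∣ d ∧
      ∀ j < K, (a + j * d).Prime ∧ a + j * d ≡ b [MOD M] by
    obtain ⟨a, d, h1, h2, h3, h4⟩ := h
    exact ⟨a, d, h1, h2, h3, fun j hj => h4 j (by omega)⟩
  obtain ⟨δ, hδ, hmaj⟩ := maj K M b hK3 hM hb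
  obtain ⟨c, ε, hc, hε, hrel⟩ := rel K δ hK3 hδ
  obtain ⟨N, W, b', hNz, ν, f, hcop, hn₀, hW, hMW, hbb, hLF, hf0, hfν, hfδ, hsupp, hpow⟩ :=
    hmaj (min ε (c / 2)) (4 * n₀ + 1) (lt_min hε (by linarith))
  have hLF2 : LF K ν ε := fun S hS => (hLF S hS).trans (min_le_left _ _)
  have hsum := hrel N ν f hcop hf0 hfν hLF2 hfδ
  have hNpos : 0 < N := by omega
  have hNR : (0 : ℝ) < N := by exact_mod_cast hNpos
  -- a progression with difference nonzero
  obtain ⟨a, d, hd, hne⟩ : ∃ a d : ZMod N, d ≠ 0 ∧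
      ∏ j ∈ Finset.range K, f (a + j * d) ≠ 0 := by
    by_contra hcon
    push Not at hcon
    have h1 : ∀ a : ZMod N, ∑ d : ZMod N, ∏ j ∈ Finset.range K, f (a + j * d) = f a ^ K := by
      intro a
      rw [Finset.sum_eq_single (0 : ZMod N)]
      · simp
      · intro d _ hd
        exact hcon a d hd
      · intro h
        exact absurd (mem_univ _) h
    simp only [h1] at hsum
    have h2 := hsum.trans (hpow.trans
      (mul_le_mul_of_nonneg_right (min_le_right ε (c / 2)) (by positivity)))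
    have h3 : 0 < (N : ℝ) ^ 2 := by positivity
    nlinarith
  have hfne : ∀ j < K, f (a + j * d) ≠ 0 := fun j hj =>
    Finset.prod_ne_zero_iff.1 hne j (mem_range.2 hj)
  set x : ℕ → ℕ := fun j => (a + j * d).val with hx
  have hxb : ∀ j < K, N ≤ 4 * x j ∧ 4 * x j < 3 * N ∧ (W * x j + b').Prime := fun j hj =>
    hsupp _ (hfne j hj)
  have hxc : ∀ j, ((x j : ℕ) : ZMod N) = a + j * d := fun j => ZMod.natCast_zmod_val _
  set e : ℤ := (x 1 : ℤ) - x 0 with he
  have hec : ((e : ℤ) : ZMod N) = d := by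
    rw [he]
    push_cast
    rw [hxc, hxc]
    push_cast
    ring
  have he0 : e ≠ 0 := by
    intro h
    rw [h] at hec
    apply hd
    rw [← hec]
    simp
  have hx0 := hxb 0 (by omega)
  have hx1 := hxb 1 (by omega)
  have hseq : ∀ j < K, (x j : ℤ) = x 0 + j * e := by
    intro j
    induction j with
    | zero => intro _; simp
    | succ j ih =>
      intro hj
      have h1 := ih (by omega)
      have h2 := hxb j (by omega)
      have h3 := hxb (j + 1) hj
      have h4 : (N : ℤ) ∣ ((x (j + 1) : ℤ) - x j - e) := by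
        rw [← ZMod.intCast_zmod_eq_zero_iff_dvd]
        push_cast
        rw [hxc, hxc, hec]
        push_cast
        ring
      have h5 : |((x (j + 1) : ℤ) - x j - e)| < N := by
        rw [abs_lt]
        constructor <;> omega
      have h6 := Int.eq_zero_of_abs_lt_dvd h4 h5
      push_cast
      linarith
  rcases lt_or_gt_of_ne he0 with hneg | hpos
  · -- e < 0
    obtain ⟨e', he'⟩ : ∃ e' : ℕ, (e' : ℤ) = -e := ⟨(-e).toNat, Int.toNat_of_nonneg (by omega)⟩
    refine prime_seq K M b W b' n₀ hW hMW hbb (fun j => x (K - 1 - j)) e' (by omega) ?_ ?_ ?_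
    · intro j hj
      have h1 := hseq (K - 1 - j) (by omega)
      have h2 := hseq (K - 1) (by omega)
      have h3 : ((x (K - 1 - j) : ℕ) : ℤ) = x (K - 1 - 0) + j * e' := by
        rw [Nat.sub_zero, h1, h2, he']
        have : ((K - 1 - j : ℕ) : ℤ) = (K - 1 : ℕ) - j := by omega
        rw [this]
        ring
      exact_mod_cast h3
    · have h1 := hxb (K - 1) (by omega)
      show n₀ ≤ x (K - 1 - 0)
      rw [Nat.sub_zero]
      omega
    · intro j hj
      exact (hxb (K - 1 - j) (by omega)).2.2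
  · obtain ⟨e', he'⟩ : ∃ e' : ℕ, (e' : ℤ) = e := ⟨e.toNat, Int.toNat_of_nonneg (by omega)⟩
    refine prime_seq K M b W b' n₀ hW hMW hbb x e' (by omega) ?_ ?_ ?_
    · intro j hj
      have h1 := hseq j hj
      rw [← he'] at h1
      exact_mod_cast h1
    · omega
    · intro j hj
      exact (hxb j hj).2.2

end Pool.Agent.GT.H41
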