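import Pool.Agent.GT.StmtsD
import Pool.Agent.Helper75_NJ.Bad

/-! GT, D_GOO, D_TWI, D_BDR. -/

set_option autoImplicit false

namespace Pool.Agent.GT.D.H41

open Polynomial Pool.Agent.NJ Pool.Agent.NJ.H75

noncomputable section

theorem d_goo : GooStmt := by
  intro e r s p hT hp hnd i
  have : Fact p.Prime := ⟨hp⟩
  have hpZ : Prime (p : ℤ) := Nat.prime_iff_prime_int.mp hp
  unfold vl
  by_cases hdvd : (p : ℤ) ∣ Xc e r s i
  · have hs : ¬ (p : ℤ) ∣ s := by
      intro h
      have hr : (p : ℤ) ∣ r := by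
        have h1 : (p : ℤ) ∣ e i * s ^ 2 := Dvd.dvd.mul_left (Dvd.dvd.pow h two_ne_zero) _
        have h2 : r = Xc e r s i + e i * s ^ 2 := by unfold Xc; ring
        rw [h2]
        exact dvd_add hdvd h1
      exact hpZ.not_isUnit (hT.cop.isUnit_of_dvd' hr h)
    have hj : ∀ j, j ≠ i → ¬ (p : ℤ) ∣ Xc e r s j := by
      intro j hji h
      have h1 : (p : ℤ) ∣ (e i - e j) * s ^ 2 := by
        have h2 : (e i - e j) * s ^ 2 = Xc e r s j - Xc e r s i := by unfold Xc; ring
        rw [h2]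
        exact dvd_sub h hdvd
      rcases hpZ.dvd_or_dvd h1 with h3 | h3
      · exact hnd i j (Ne.symm hji) h3
      · exact hs (hpZ.dvd_of_dvd_pow h3)
    have hv : ∀ j, j ≠ i → padicValInt p (Xc e r s j) = 0 := fun j hji =>
      padicValInt.eq_zero_of_not_dvd (hj j hji)
    obtain ⟨m, hm⟩ := hT.sq
    have hprod : Xc e r s 0 * Xc e r s 1 * Xc e r s 2 ≠ 0 :=
      mul_ne_zero (mul_ne_zero (hT.ne 0) (hT.ne 1)) (hT.ne 2)
    have hm0 : m ≠ 0 := by
      rintro rfl
      rw [mul_zero] at hm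
      exact hprod hm
    have h1 : padicValInt p (Xc e r s 0) + padicValInt p (Xc e r s 1) +
        padicValInt p (Xc e r s 2) = padicValInt p m + padicValInt p m := by
      rw [← padicValInt.mul (hT.ne 0) (hT.ne 1),
        ← padicValInt.mul (mul_ne_zero (hT.ne 0) (hT.ne 1)) (hT.ne 2), hm,
        padicValInt.mul hm0 hm0]
    have h2 : padicValInt p (Xc e r s i) = padicValInt p m + padicValInt p m := by
      rw [← h1]
      fin_cases i
      · have a1 := hv 1 (by decide)
        have a2 := hv 2 (by decide)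
        show padicValInt p (Xc e r s 0) = _
        rw [a1, a2]
        rfl
      · have a1 := hv 0 (by decide)
        have a2 := hv 2 (by decide)
        show padicValInt p (Xc e r s 1) = _
        rw [a1, a2]
        omega
      · have a1 := hv 0 (by decide)
        have a2 := hv 1 (by decide)
        show padicValInt p (Xc e r s 2) = _
        rw [a1, a2]
        omega
    rw [h2]
    push_cast
    exact CharTwo.add_self_eq_zero _
  · rw [padicValInt.eq_zero_of_not_dvd hdvd]
    simp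

theorem twist_b₂ (E : WeierstrassCurve ℚ[X]) (k : ℤ) :
    (twist E k).b₂ = 4 * (C (k : ℚ) * E.b₂) := by
  unfold twist
  simp only [WeierstrassCurve.b₂]
  ring

theorem twist_b₄ (E : WeierstrassCurve ℚ[X]) (k : ℤ) :
    (twist E k).b₄ = 16 * (C (k : ℚ) ^ 2 * E.b₄) := by
  unfold twist
  simp only [WeierstrassCurve.b₄, map_mul, map_pow]
  have h8 : (C (8 : ℚ) : ℚ[X]) = 8 := map_ofNat C 8
  rw [h8]
  ring

theorem twist_b₆ (E : WeierstrassCurve ℚ[X]) (k : ℤ) :
    (twist E k).b₆ = 64 * (C (k : ℚ) ^ 3 * E.b₆) := by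
  unfold twist
  simp only [WeierstrassCurve.b₆, map_mul, map_pow]
  have h16 : (C (16 : ℚ) : ℚ[X]) = 16 := map_ofNat C 16
  rw [h16]
  ring

theorem twist_b₈ (E : WeierstrassCurve ℚ[X]) (k : ℤ) :
    (twist E k).b₈ = 256 * (C (k : ℚ) ^ 4 * E.b₈) := by
  have h1 := (twist E k).b_relation
  have h2 := E.b_relation
  rw [twist_b₂, twist_b₄, twist_b₆] at h1
  have h3 : (4 : ℚ[X]) ≠ 0 := by
    have : (4 : ℚ[X]) = C 4 := (map_ofNat C 4).symm
    rw [this, Ne, C_eq_zero]
    norm_num
  apply mul_left_cancel₀ h3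
  rw [h1]
  linear_combination (-256 * C (k : ℚ) ^ 4) * h2

theorem twist_Δ (E : WeierstrassCurve ℚ[X]) (k : ℤ) :
    (twist E k).Δ = 4096 * (C (k : ℚ) ^ 6 * E.Δ) := by
  simp only [WeierstrassCurve.Δ]
  rw [twist_b₂, twist_b₄, twist_b₆, twist_b₈]
  ring

theorem alg_Ck (k : ℤ) : algebraMap ℚ[X] (RatFunc ℚ) (C (k : ℚ)) = (k : RatFunc ℚ) := by
  have h : (C (k : ℚ) : ℚ[X]) = ((k : ℤ) : ℚ[X]) := by simp
  rw [h, map_intCast]

theorem d_twi : TwiStmt := by
  intro E k hk hΔ
  have hCk : (C (k : ℚ) : ℚ[X]) ≠ 0 := by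
    rw [Ne, C_eq_zero]
    exact_mod_cast hk
  refine ⟨?_, ?_⟩
  · rw [twist_Δ]
    have h3 : (4096 : ℚ[X]) ≠ 0 := by
      have : (4096 : ℚ[X]) = C 4096 := (map_ofNat C 4096).symm
      rw [this, Ne, C_eq_zero]
      norm_num
    exact mul_ne_zero h3 (mul_ne_zero (pow_ne_zero _ hCk) hΔ)
  · intro e₁ e₂ e₃ u δ x y z hR hD
    obtain ⟨h1, h2, h3⟩ := hR
    unfold gen at h1 h2 h3
    rw [WeierstrassCurve.map_b₂] at h1
    rw [WeierstrassCurve.map_b₄] at h2
    rw [WeierstrassCurve.map_b₆] at h3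
    refine ⟨⟨?_, ?_, ?_⟩, ?_⟩
    · unfold gen
      rw [WeierstrassCurve.map_b₂, twist_b₂, map_mul, map_mul, alg_Ck, h1]
      simp only [map_ofNat]
      ring
    · unfold gen
      rw [WeierstrassCurve.map_b₄, twist_b₄, map_mul, map_mul, map_pow, alg_Ck, h2]
      simp only [map_ofNat]
      ring
    · unfold gen
      rw [WeierstrassCurve.map_b₆, twist_b₆, map_mul, map_mul, map_pow, alg_Ck, h3]
      simp only [map_ofNat]
      ring
    · refine
        { u0 := mul_ne_zero two_ne_zero hD.u0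
          d0 := mul_ne_zero hCk hD.d0
          x0 := hD.x0
          y0 := hD.y0
          z0 := hD.z0
          sum := hD.sum
          cop := hD.cop
          h12 := ?_
          h23 := ?_
          h31 := ?_ }
      · have h := hD.h12
        rw [map_mul] at h
        rw [map_mul, map_mul, alg_Ck]
        linear_combination (4 * (k : RatFunc ℚ)) * h
      · have h := hD.h23
        rw [map_mul] at h
        rw [map_mul, map_mul, alg_Ck]
        linear_combination (4 * (k : RatFunc ℚ)) * h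
      · have h := hD.h31
        rw [map_mul] at h
        rw [map_mul, map_mul, alg_Ck]
        linear_combination (4 * (k : RatFunc ℚ)) * h

theorem d_bdr (gdr : GDRStmt) (plc : PLCStmt) : BdrStmt := by
  classical
  intro E hE hb e₁ e₂ e₃ u δ x y z hR hD t ht
  obtain ⟨A, v, hA, hm, hmem, hp⟩ := plc.1 t
  have ot : Ord A v (fun p => (p.rootMultiplicity t : ℤ)) := ⟨hA.1, hm, hmem, hp⟩
  have hbt : A ∈ badPlaces E := by
    refine ⟨hA, ?_⟩
    intro hg
    obtain ⟨k, k1, k2, k3⟩ := key gdr ot hg hR hD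
    -- coprimality
    have hc : ¬ ((x.map (algebraMap ℚ ℂ)).IsRoot t ∧ (y.map (algebraMap ℚ ℂ)).IsRoot t) := by
      rintro ⟨r1, r2⟩
      have hcop := hD.cop.map (mapRingHom (algebraMap ℚ ℂ))
      obtain ⟨a, b, hab⟩ := hcop
      have := congrArg (eval t) hab
      simp only [coe_mapRingHom, eval_add, eval_mul, eval_one] at this
      rw [IsRoot.def] at r1 r2
      rw [r1, r2] at this
      norm_num at this
    have hx0 : (x.map (algebraMap ℚ ℂ)).rootMultiplicity t = 0 := by
      by_contra hne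
      have px : 0 < (x.map (algebraMap ℚ ℂ)).rootMultiplicity t := Nat.pos_of_ne_zero hne
      have py : 0 < (y.map (algebraMap ℚ ℂ)).rootMultiplicity t := by omega
      exact hc ⟨(rootMultiplicity_pos (map_ne hD.x0)).mp px,
        (rootMultiplicity_pos (map_ne hD.y0)).mp py⟩
    have hy0 : (y.map (algebraMap ℚ ℂ)).rootMultiplicity t = 0 := by omega
    have hz0 : (z.map (algebraMap ℚ ℂ)).rootMultiplicity t = 0 := by omega
    have hev : Even ((δ.map (algebraMap ℚ ℂ)).rootMultiplicity t) := by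
      rw [hx0] at k1
      refine ⟨k.toNat, ?_⟩
      omega
    rcases ht with h | h
    · rw [map_mul, map_mul] at h
      have nr : ∀ {q : ℚ[X]}, q ≠ 0 → (q.map (algebraMap ℚ ℂ)).rootMultiplicity t = 0 →
          aeval t q ≠ 0 := by
        intro q hq hq0 hh
        have : (q.map (algebraMap ℚ ℂ)).IsRoot t := by
          rw [IsRoot.def, eval_map_algebraMap]
          exact hh
        have := (rootMultiplicity_pos (map_ne hq)).mpr this
        omega
      exact mul_ne_zero (mul_ne_zero (nr hD.x0 hx0) (nr hD.y0 hy0)) (nr hD.z0 hz0) h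
    · exact (Nat.not_odd_iff_even.mpr hev) h
  rcases hb A hbt with h | ⟨c, h⟩
  · exfalso
    apply h
    rw [← RatFunc.algebraMap_X, ot.mem _ (alg_ne X_ne_zero), ot.pol _ X_ne_zero]
    positivity
  · refine ⟨c, ?_⟩
    by_contra hne
    apply h
    have h0 : (X - C (c : ℂ) : ℂ[X]) ≠ 0 := X_sub_C_ne_zero _
    have e1 : (RatFunc.X - RatFunc.C (c : ℂ) : RatFunc ℂ) =
        algebraMap ℂ[X] (RatFunc ℂ) (X - C (c : ℂ)) := by
      rw [map_sub, RatFunc.algebraMap_X, RatFunc.algebraMap_C]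
    rw [e1, ot.mem _ (inv_ne_zero (alg_ne h0)), ot.inv (alg_ne h0), ot.pol _ h0]
    simp only [rootMultiplicity_X_sub_C]
    rw [if_neg (fun h => hne h)]
    norm_num

end

end Pool.Agent.GT.D.H41
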